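import Mathlib
import Pool.Agent.H.MP_77d395_lc.A

set_option autoImplicit false

namespace Pool.Agent.Results.MP_ec3397_lc.No

open Set Function Cardinal Pool.Agent.H.MP_77d395_lc

/-- continuum many uncountable subsets of omega one can always be split by one set -/
def Spl : Prop := ∀ 𝒞 : Set (Set I), #𝒞 ≤ 𝔠 → (∀ C ∈ 𝒞, ¬ C.Countable) →
  ∃ Z, ∀ C ∈ 𝒞, (C ∩ Z).Nonempty ∧ (C \ Z).Nonempty

/-- the assertion star -/
def Star : Prop := ∀ (X : Type) [TopologicalSpace X] [NormalSpace X] (Y : Set X), IsClosed Y →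
  DiscreteTopology Y → #Y = ℵ₁ → ∀ F : Set (Y → Set X), #F ≤ 𝔠 →
    (∀ f ∈ F, ∀ y, IsOpen (f y) ∧ f y ∩ Y = {y.1}) →
      (∀ Z : Set Y, ∃ f ∈ F, Disjoint (⋃ y ∈ Z, f y) (⋃ y ∈ Zᶜ, f y)) →
        ∃ U : Y → Set X, (∀ y, IsOpen (U y) ∧ y.1 ∈ U y) ∧ Pairwise (Disjoint on U)

theorem result (h : Spl) : Star := fun X _ _ Y _ _ k F c a w => by
  obtain ⟨e⟩ := Cardinal.eq.1 (k.trans mkI.symm)
  have := e.nonempty
  let E (f : Y → Set X) (y : Y) := {z | Relation.EqvGen (fun y z => (f y ∩ f z).Nonempty) y z}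
  have m : ∀ f ∈ F, ∀ y : Y, y.1 ∈ f y := fun f p y => ((a f p y).2.ge rfl).1
  obtain ⟨f, p, q⟩ : ∃ f ∈ F, ∀ y, (E f y).Countable := by
    by_contra! n
    choose! y hy using n
    obtain ⟨Z, z⟩ := h ((fun f => e '' E f (y f)) '' F) (mk_image_le.trans c) (by
      rintro _ ⟨f, p, rfl⟩ q
      exact hy f p (countable_of_injective_of_countable_image e.injective.injOn q))
    obtain ⟨f, p, d⟩ := w (e ⁻¹' Z)
    have : ∀ u v, Relation.EqvGen (fun y z => (f y ∩ f z).Nonempty) u v → (e u ∈ Z ↔ e v ∈ Z) :=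
      fun u v r => r.rec (fun u v ⟨x, s, t⟩ => ⟨fun i => by_contra fun j => disjoint_left.1 d
        (mem_biUnion i s) (mem_biUnion j t), fun i => by_contra fun j => disjoint_left.1 d
          (mem_biUnion i t) (mem_biUnion j s)⟩) (fun _ => .rfl) (fun _ _ _ => .symm)
            fun _ _ _ _ _ => .trans
    obtain ⟨⟨_, ⟨u, u1, rfl⟩, u2⟩, _, ⟨v, v1, rfl⟩, v2⟩ := z _ ⟨f, p, rfl⟩
    exact v2 ((this _ _ v1).1 ((this _ _ u1).2 u2))
  choose! n hn using fun C : Set Y => (countable_iff_exists_injOn (s := C)).1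
  choose g g1 g2 using fun y => w {y}
  have i : ∀ {y z}, z ∈ E f y → E f z = E f y := fun r => ext fun _ =>
    ⟨.trans _ _ _ r, .trans _ _ _ (.symm _ _ r)⟩
  let l (y : Y) := n (E f y)
  have l1 : ∀ y, InjOn (l y) (E f y) := fun y => hn _ (q y)
  let S (y : Y) := {z ∈ E f y | l y z < l y y}
  have s : ∀ y, (S y).Finite := fun y => .of_finite_image ((finite_lt_nat (l y y)).subset
    (image_subset_iff.2 fun z r => r.2)) ((l1 y).mono fun z r => r.1)
  have t : ∀ y z, z ∈ S y → Disjoint (f y ∩ g y y ∩ ⋂ z ∈ S y, g z y)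
      (f z ∩ g z z ∩ ⋂ y ∈ S z, g y z) := fun y z r => disjoint_left.2 fun x u v =>
    disjoint_left.1 (g2 z) (mem_biUnion rfl v.1.2) (mem_biUnion (show y ≠ z from
      fun j => (j ▸ r.2).false) (mem_iInter₂.1 u.2 z r))
  refine ⟨fun y => f y ∩ g y y ∩ ⋂ z ∈ S y, g z y, fun y => ⟨((a f p y).1.inter
    (a _ (g1 y) y).1).inter ((s y).isOpen_biInter fun z _ => (a _ (g1 z) y).1),
      ⟨m f p y, m _ (g1 y) y⟩, mem_iInter₂.2 fun z _ => m _ (g1 z) y⟩, fun y z j => ?_⟩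
  by_cases r : z ∈ E f y
  · have o : l z = l y := congrArg n (i r)
    rcases lt_or_gt_of_ne (mt (l1 y (.refl _) r) j) with u | u
    · exact (t z y ⟨.symm _ _ r, o ▸ u⟩).symm
    exact t y z ⟨r, u⟩
  exact disjoint_left.2 fun x u v => r (.rel _ _ ⟨x, u.1.1, v.1.1⟩)

end Pool.Agent.Results.MP_ec3397_lc.No
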